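import Mathlib

/-!
# Linear independence of products of shifted linear factors

Any `k` of the polynomials `P_i = ∏_{j=1}^{k-1} (X - t_{i+j})` are linearly independent.

Let `φ` be a linear functional and `d_i = φ (P_i)`.  If `d` has `r` alternations of sign (in the
weak sense, but with a nonzero term), then its difference sequence has `r - 1` of them, and the
difference sequence is a negative multiple of the sequence obtained for `k - 1`.  Hence there are
never `k` alternations.  If `φ` kills `k` of the `P_i`, then it has to kill all of them, hence it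
vanishes on the polynomials of degree less than `k`.
-/

set_option autoImplicit false

namespace Pool.Agent.Results.MP_441cc7_al.LinIndep

open Polynomial

/-- The product of the `m` factors `X - t_{i+j}`, `j < m`. -/
noncomputable def P (t : ℕ → ℝ) (m i : ℕ) : ℝ[X] := ∏ j ∈ Finset.range m, (X - C (t (i + j)))

theorem P_succ_left (t : ℕ → ℝ) (m i : ℕ) : P t (m + 1) i = (X - C (t i)) * P t m (i + 1) := by
  unfold P
  rw [Finset.prod_range_succ']
  rw [mul_comm, add_zero]
  congr 1
  refine Finset.prod_congr rfl fun j _ => ?_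
  rw [show i + (j + 1) = i + 1 + j by ring]

theorem P_succ_right (t : ℕ → ℝ) (m i : ℕ) : P t (m + 1) i = (X - C (t (i + m))) * P t m i := by
  unfold P
  rw [Finset.prod_range_succ, mul_comm]

theorem P_sub (t : ℕ → ℝ) (m i : ℕ) :
    P t (m + 1) (i + 1) - P t (m + 1) i = (t i - t (i + 1 + m)) • P t m (i + 1) := by
  rw [P_succ_left t m i, P_succ_right t m (i + 1), smul_eq_C_mul, C_sub]
  ring

theorem P_monic (t : ℕ → ℝ) (m i : ℕ) : (P t m i).Monic :=
  monic_prod_of_monic _ _ fun j _ => monic_X_sub_C _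

theorem P_natDegree (t : ℕ → ℝ) (m i : ℕ) : (P t m i).natDegree = m := by
  unfold P
  rw [natDegree_prod_of_monic _ _ fun j _ => monic_X_sub_C _]
  simp

/-- `r` weak alternations of sign, with a nonzero term. -/
def Alt (d : ℕ → ℝ) (r : ℕ) : Prop :=
  ∃ (j : Fin (r + 1) → ℕ) (ε : ℝ), StrictMono j ∧
    (∀ m : Fin (r + 1), 0 ≤ ε * (-1) ^ (m : ℕ) * d (j m)) ∧ ε ≠ 0 ∧ ∃ m, d (j m) ≠ 0

theorem exists_drop_weak (d : ℕ → ℝ) {a b : ℕ} (hab : a < b) (h : d b ≤ d a) :
    ∃ i, a ≤ i ∧ i < b ∧ d (i + 1) ≤ d i := by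
  by_contra hno
  push Not at hno
  have : ∀ n, a + 1 ≤ n → n ≤ b → d a < d n := by
    intro n hn
    induction n, hn using Nat.le_induction with
    | base => intro hb; exact hno a le_rfl hab
    | succ n hn ih => intro hb; exact (ih (by omega)).trans (hno n (by omega) (by omega))
  exact absurd (this b hab le_rfl) (not_lt.mpr h)

theorem exists_drop_strict (d : ℕ → ℝ) {a b : ℕ} (hab : a < b) (h : d b < d a) :
    ∃ i, a ≤ i ∧ i < b ∧ d (i + 1) < d i := by
  by_contra hno
  push Not at hno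
  have : ∀ n, a ≤ n → n ≤ b → d a ≤ d n := by
    intro n hn
    induction n, hn using Nat.le_induction with
    | base => intro hb; exact le_rfl
    | succ n hn ih => intro hb; exact (ih (by omega)).trans (hno n (by omega) (by omega))
  exact absurd (this b hab.le le_rfl) (not_le.mpr h)

/-- Discrete Rolle. -/
theorem exists_drop (d : ℕ → ℝ) {a b : ℕ} (hab : a < b) (ha : 0 ≤ d a) (hb : d b ≤ 0) :
    ∃ i, a ≤ i ∧ i < b ∧ 0 ≤ d i - d (i + 1) ∧ ((d a ≠ 0 ∨ d b ≠ 0) → d i - d (i + 1) ≠ 0) := by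
  rcases (hb.trans ha).lt_or_eq with h | h
  · obtain ⟨i, h1, h2, h3⟩ := exists_drop_strict d hab h
    exact ⟨i, h1, h2, by linarith, fun _ => by linarith⟩
  · obtain ⟨i, h1, h2, h3⟩ := exists_drop_weak d hab h.le
    refine ⟨i, h1, h2, by linarith, fun h4 => ?_⟩
    exfalso
    have e1 : d a = 0 := le_antisymm (h ▸ hb) ha
    have e2 : d b = 0 := by rw [h, e1]
    rcases h4 with h4 | h4
    · exact h4 e1
    · exact h4 e2

theorem Alt.diff {d : ℕ → ℝ} {r : ℕ} (h : Alt d (r + 1)) : Alt (fun i => d i - d (i + 1)) r := by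
  obtain ⟨j, ε, hj, hs, hε, m₀, hm₀⟩ := h
  have key : ∀ m : Fin (r + 1), ∃ i, j m.castSucc ≤ i ∧ i < j m.succ ∧
      0 ≤ ε * (-1) ^ (m : ℕ) * (d i - d (i + 1)) ∧
      ((d (j m.castSucc) ≠ 0 ∨ d (j m.succ) ≠ 0) → d i - d (i + 1) ≠ 0) := by
    intro m
    have h1 := hs m.castSucc
    have h2 := hs m.succ
    rw [Fin.val_castSucc] at h1
    rw [Fin.val_succ, pow_succ] at h2
    obtain ⟨i, a1, a2, a3, a4⟩ := exists_drop (fun i => ε * (-1) ^ (m : ℕ) * d i)
      (hj (Fin.castSucc_lt_succ (i := m))) h1 (by simpa using h2)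
    refine ⟨i, a1, a2, by rw [mul_sub]; exact a3, fun h5 => ?_⟩
    have hc : ε * (-1) ^ (m : ℕ) ≠ 0 := mul_ne_zero hε (pow_ne_zero _ (by norm_num))
    have a5 := a4 (by
      rcases h5 with h5 | h5
      · exact Or.inl (mul_ne_zero hc h5)
      · exact Or.inr (mul_ne_zero hc h5))
    rw [← mul_sub] at a5
    exact right_ne_zero_of_mul a5
  choose i hi1 hi2 hi3 hi4 using key
  refine ⟨i, ε, ?_, hi3, hε, ?_⟩
  · intro a b hab
    have h1 : a.succ ≤ b.castSucc := by
      rw [Fin.le_def, Fin.val_succ, Fin.val_castSucc]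
      exact hab
    exact (hi2 a).trans_le ((hj.monotone h1).trans (hi1 b))
  · rcases Fin.eq_castSucc_or_eq_last m₀ with ⟨m, rfl⟩ | rfl
    · exact ⟨m, hi4 m (Or.inl hm₀)⟩
    · refine ⟨Fin.last r, hi4 _ (Or.inr ?_)⟩
      simpa using hm₀

theorem Alt.scale {d e : ℕ → ℝ} {r : ℕ} (h : Alt d r)
    (hde : ∀ i, ∃ c : ℝ, 0 < c ∧ d i = c * e i) : Alt e r := by
  obtain ⟨j, ε, hj, hs, hε, m₀, hm₀⟩ := h
  refine ⟨j, ε, hj, fun m => ?_, hε, m₀, ?_⟩
  · obtain ⟨c, hc, h1⟩ := hde (j m)
    have h2 := hs m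
    rw [h1] at h2
    have h3 : ε * (-1) ^ (m : ℕ) * (c * e (j m)) = c * (ε * (-1) ^ (m : ℕ) * e (j m)) := by ring
    rw [h3] at h2
    exact nonneg_of_mul_nonneg_right h2 hc
  · obtain ⟨c, hc, h1⟩ := hde (j m₀)
    rw [h1] at hm₀
    exact right_ne_zero_of_mul hm₀

/-- A functional never has `m + 1` alternations on the `P_i` of degree `m`. -/
theorem not_alt (φ : ℝ[X] →ₗ[ℝ] ℝ) (m : ℕ) : ∀ (t : ℕ → ℝ), StrictMono t →
    ¬ Alt (fun i => φ (P t m i)) (m + 1) := by
  induction m with
  | zero =>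
    rintro t ht h
    obtain ⟨j, ε, hj, hs, hε, m₀, hm₀⟩ := h
    have h0 := hs 0
    have h1 := hs 1
    simp only [P, Finset.range_zero, Finset.prod_empty] at h0 h1 hm₀
    simp at h0 h1
    have h2 : ε * φ 1 = 0 := le_antisymm h1 h0
    rcases mul_eq_zero.mp h2 with h3 | h3
    · exact hε h3
    · exact hm₀ h3
  | succ m ih =>
    rintro t ht h
    have h1 := h.diff
    have ht' : StrictMono fun n => t (n + 1) := fun a b hab => ht (Nat.succ_lt_succ hab)
    refine ih (fun n => t (n + 1)) ht' (h1.scale fun i => ?_)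
    refine ⟨t (i + 1 + m) - t i, sub_pos.mpr (ht (by omega)), ?_⟩
    have h2 : P (fun n => t (n + 1)) m i = P t m (i + 1) := by
      unfold P
      refine Finset.prod_congr rfl fun j _ => ?_
      change X - C (t (i + j + 1)) = _
      rw [show i + j + 1 = i + 1 + j by ring]
    have h3 := congrArg φ (P_sub t m i)
    rw [map_sub, map_smul, smul_eq_mul] at h3
    simp only [h2]
    linarith

/-- If `φ` kills all the `P_i`, then it kills all polynomials of degree at most `m`. -/
theorem kill (φ : ℝ[X] →ₗ[ℝ] ℝ) (m : ℕ) : ∀ (t : ℕ → ℝ), StrictMono t →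
    (∀ i, φ (P t m i) = 0) → ∀ p : ℝ[X], p.natDegree ≤ m → φ p = 0 := by
  induction m with
  | zero =>
    intro t ht h p hp
    have h0 := h 0
    simp only [P, Finset.range_zero, Finset.prod_empty] at h0
    rw [eq_C_of_natDegree_le_zero hp, ← mul_one (C _), ← smul_eq_C_mul, map_smul, h0, smul_zero]
  | succ m ih =>
    intro t ht h p hp
    have ht' : StrictMono fun n => t (n + 1) := fun a b hab => ht (Nat.succ_lt_succ hab)
    have hm : ∀ i, φ (P (fun n => t (n + 1)) m i) = 0 := by
      intro i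
      have h2 : P (fun n => t (n + 1)) m i = P t m (i + 1) := by
        unfold P
        refine Finset.prod_congr rfl fun j _ => ?_
        change X - C (t (i + j + 1)) = _
        rw [show i + j + 1 = i + 1 + j by ring]
      have h3 := congrArg φ (P_sub t m i)
      rw [map_sub, map_smul, h, h, sub_zero, smul_eq_mul] at h3
      have h4 : t i - t (i + 1 + m) ≠ 0 := (sub_neg.mpr (ht (by omega))).ne
      rw [h2]
      exact (mul_eq_zero.mp h3.symm).resolve_left h4
    have h5 := ih (fun n => t (n + 1)) ht' hm (p - C (p.coeff (m + 1)) * P t (m + 1) 0) (by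
      rw [natDegree_le_iff_coeff_eq_zero]
      intro N hN
      rw [coeff_sub, coeff_C_mul]
      rcases Nat.lt_or_ge (m + 1) N with h6 | h6
      · have e1 : (P t (m + 1) 0).coeff N = 0 :=
          coeff_eq_zero_of_natDegree_lt (by rw [P_natDegree]; exact h6)
        rw [coeff_eq_zero_of_natDegree_lt (hp.trans_lt h6), e1, mul_zero, sub_zero]
      · have h7 : N = m + 1 := by omega
        subst h7
        have h8 : (P t (m + 1) 0).coeff (m + 1) = 1 := by
          have := (P_monic t (m + 1) 0).coeff_natDegree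
          rwa [P_natDegree] at this
        rw [h8, mul_one, sub_self])
    rw [map_sub, ← smul_eq_C_mul, map_smul, h, smul_zero, sub_zero] at h5
    exact h5

/-- If `φ` kills `m + 1` of the `P_i`, then it kills all of them. -/
theorem kill_all (φ : ℝ[X] →ₗ[ℝ] ℝ) (m : ℕ) (t : ℕ → ℝ) (ht : StrictMono t)
    (i : Fin (m + 1) → ℕ) (hi : StrictMono i) (h : ∀ l, φ (P t m (i l)) = 0) (a : ℕ) :
    φ (P t m a) = 0 := by
  by_contra hne
  apply not_alt φ m t ht
  have ha : a ∉ Finset.image i Finset.univ := by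
    intro h1
    obtain ⟨l, -, rfl⟩ := Finset.mem_image.mp h1
    exact hne (h l)
  have hcard : (insert a (Finset.image i Finset.univ)).card = m + 1 + 1 := by
    rw [Finset.card_insert_of_notMem ha, Finset.card_image_of_injective _ hi.injective]
    simp
  set e := (insert a (Finset.image i Finset.univ)).orderEmbOfFin hcard with he
  have hmem : a ∈ Set.range e := by
    rw [he, Finset.range_orderEmbOfFin]
    simp
  obtain ⟨l₀, hl₀⟩ := hmem
  have hother : ∀ l, l ≠ l₀ → φ (P t m (e l)) = 0 := by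
    intro l hl
    have h1 : e l ∈ insert a (Finset.image i Finset.univ) := Finset.orderEmbOfFin_mem _ _ _
    rcases Finset.mem_insert.mp h1 with h2 | h2
    · exact absurd (e.injective (h2.trans hl₀.symm)) hl
    · obtain ⟨l', -, h3⟩ := Finset.mem_image.mp h2
      rw [← h3]
      exact h l'
  refine ⟨e, (-1) ^ (l₀ : ℕ) * φ (P t m a), e.strictMono, ?_, ?_, l₀, ?_⟩
  · intro l
    by_cases hl : l = l₀
    · subst hl
      rw [hl₀]
      have h1 : (-1 : ℝ) ^ (l : ℕ) * (-1) ^ (l : ℕ) = 1 := by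
        rw [← mul_pow]; simp
      have h2 : (-1 : ℝ) ^ (l : ℕ) * φ (P t m a) * (-1) ^ (l : ℕ) * φ (P t m a) =
          ((-1 : ℝ) ^ (l : ℕ) * (-1) ^ (l : ℕ)) * (φ (P t m a) * φ (P t m a)) := by ring
      rw [h2, h1, one_mul]
      exact mul_self_nonneg _
    · simp only [hother l hl, mul_zero, le_refl]
  · exact mul_ne_zero (pow_ne_zero _ (by norm_num)) hne
  · rw [hl₀]; exact hne

/-- **Theorem** (Q1 holds). Here `t n` is the term `t_{n+1}` of the sequence, so that
`∏ j ∈ range (k - 1), (X - t (i l + j))` is `P_{i_l}`. -/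
theorem result (k : ℕ) (hk : 2 ≤ k) (t : ℕ → ℝ) (ht : StrictMono t) (i : Fin k → ℕ)
    (hi : StrictMono i) :
    LinearIndependent ℝ fun l : Fin k => ∏ j ∈ Finset.range (k - 1), (X - C (t (i l + j))) := by
  obtain ⟨m, rfl⟩ : ∃ m, k = m + 1 := ⟨k - 1, by omega⟩
  change LinearIndependent ℝ fun l : Fin (m + 1) => P t m (i l)
  rw [linearIndependent_iff_card_le_finrank_span, Fintype.card_fin]
  have hle : degreeLT ℝ (m + 1) ≤ Submodule.span ℝ (Set.range fun l => P t m (i l)) := by
    intro p hp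
    by_contra hnot
    obtain ⟨φ, hφ, hker⟩ := Submodule.exists_le_ker_of_notMem hnot
    apply hφ
    refine kill φ m t ht (kill_all φ m t ht i hi fun l => ?_) p ?_
    · exact LinearMap.mem_ker.mp (hker (Submodule.subset_span ⟨l, rfl⟩))
    · rw [mem_degreeLT] at hp
      by_cases h0 : p = 0
      · simp [h0]
      · exact Nat.lt_succ_iff.mp ((natDegree_lt_iff_degree_lt h0).mpr hp)
  have h1 : Module.finrank ℝ (degreeLT ℝ (m + 1)) = m + 1 := by
    rw [(degreeLTEquiv ℝ (m + 1)).finrank_eq]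
    simp
  have : Module.Finite ℝ (Submodule.span ℝ (Set.range fun l => P t m (i l))) :=
    FiniteDimensional.span_of_finite ℝ (Set.finite_range _)
  have h2 := Submodule.finrank_mono hle
  rw [h1] at h2
  exact h2

end Pool.Agent.Results.MP_441cc7_al.LinIndep
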